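import Mathlib

/-!
# Project AE (helper74), piece LOCI: general lemmas (argument of a complex number, the tail of zeta'/zeta)
-/

set_option autoImplicit false

namespace Run7.h376.AE

open Complex Filter Metric Set MeasureTheory

/-- the slit plane: points which are not real -/
theorem slit_of_im {z : ℂ} (h : z.im ≠ 0) : z ∈ Complex.slitPlane := Or.inr h

theorem arg_int {ρ : ℂ} {u : ℝ} (h : u ≠ ρ.im) (a b : ℝ) :
    IntervalIntegrable (fun x : ℝ => (1 / ((x : ℂ) + u * I - ρ)).im) volume a b ∧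
    ∫ x in a..b, (1 / ((x : ℂ) + u * I - ρ)).im = arg ((b : ℂ) + u * I - ρ) - arg ((a : ℂ) + u * I - ρ) := by
  have hs : ∀ x : ℝ, ((x : ℂ) + u * I - ρ) ∈ Complex.slitPlane := by
    intro x
    apply slit_of_im
    simp only [sub_im, add_im, ofReal_im, mul_im, ofReal_re, I_im, mul_one, I_re, mul_zero, add_zero, zero_add]
    exact sub_ne_zero.2 h
  have hd : ∀ x : ℝ, HasDerivAt (fun x : ℝ => arg ((x : ℂ) + u * I - ρ)) ((1 / ((x : ℂ) + u * I - ρ)).im) x := by
    intro x
    have h1 : HasDerivAt (fun x : ℝ => ((x : ℂ) + u * I - ρ)) 1 x := by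
      have h2 : HasDerivAt (fun y : ℂ => (y + u * I - ρ)) 1 (x : ℂ) :=
        ((hasDerivAt_id (x : ℂ)).add_const _).sub_const _
      exact h2.comp_ofReal
    have h3 := h1.clog_real (hs x)
    have h4 : HasDerivAt (fun x : ℝ => (Complex.log ((x : ℂ) + u * I - ρ)).im) ((1 / ((x : ℂ) + u * I - ρ)).im) x := by
      have h5 := (Complex.imCLM.hasFDerivAt (x := Complex.log ((x : ℂ) + u * I - ρ))).comp_hasDerivAt x h3
      exact h5
    simpa only [Complex.log_im] using h4
  have hc : Continuous (fun x : ℝ => (1 / ((x : ℂ) + u * I - ρ)).im) := by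
    apply Complex.continuous_im.comp
    apply Continuous.div continuous_const (by fun_prop)
    intro x hx
    have := hs x
    rw [hx] at this
    exact Complex.zero_notMem_slitPlane this
  refine ⟨hc.intervalIntegrable _ _, ?_⟩
  exact intervalIntegral.integral_eq_sub_of_hasDerivAt (fun x _ => hd x) (hc.intervalIntegrable _ _)

/-- the argument is Lipschitz along vertical segments far from the origin which do not meet the negative axis -/
theorem arg_lip {z w : ℂ} {δ : ℝ} (hδ : 0 < δ) (hre : z.re = w.re)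
    (h : δ ≤ z.re ∨ (δ ≤ z.im ∧ δ ≤ w.im) ∨ (z.im ≤ -δ ∧ w.im ≤ -δ)) :
    |arg z - arg w| ≤ δ⁻¹ * |z.im - w.im| := by
  obtain ⟨a, ha⟩ : ∃ a : ℝ, a = w.re := ⟨_, rfl⟩
  obtain ⟨p, hp⟩ : ∃ p : ℝ, p = z.im := ⟨_, rfl⟩
  obtain ⟨q, hq⟩ : ∃ q : ℝ, q = w.im := ⟨_, rfl⟩
  have ez : z = (a : ℂ) + p * I := by
    apply Complex.ext <;> simp [ha, hp, hre]
  have ew : w = (a : ℂ) + q * I := by
    apply Complex.ext <;> simp [ha, hq]
  rw [hre, ← ha, ← hp, ← hq] at h
  rw [← hp, ← hq, ez, ew]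
  have hre' : ∀ y : ℝ, ((a : ℂ) + y * I).re = a := by intro y; simp
  have him' : ∀ y : ℝ, ((a : ℂ) + y * I).im = y := by intro y; simp
  have hy : ∀ y ∈ Set.uIcc q p, ((a : ℂ) + y * I) ∈ Complex.slitPlane ∧ δ ≤ ‖(a : ℂ) + y * I‖ := by
    intro y hy
    have h1 := Complex.abs_re_le_norm ((a : ℂ) + y * I)
    have h2 := Complex.abs_im_le_norm ((a : ℂ) + y * I)
    rw [hre'] at h1
    rw [him'] at h2
    rcases h with h | ⟨h3, h4⟩ | ⟨h3, h4⟩
    · refine ⟨Or.inl (by rw [hre']; linarith), h.trans ((le_abs_self _).trans h1)⟩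
    · have h5 : δ ≤ y := by
        rcases Set.mem_uIcc.1 hy with ⟨h6, -⟩ | ⟨h6, -⟩ <;> linarith
      refine ⟨slit_of_im (by rw [him']; linarith), h5.trans ((le_abs_self _).trans h2)⟩
    · have h5 : y ≤ -δ := by
        rcases Set.mem_uIcc.1 hy with ⟨-, h6⟩ | ⟨-, h6⟩ <;> linarith
      refine ⟨slit_of_im (by rw [him']; linarith), ?_⟩
      have h6 := neg_abs_le y
      linarith
  have hd : ∀ y ∈ Set.uIcc q p, HasDerivWithinAt (fun y : ℝ => Complex.log ((a : ℂ) + y * I)) (I / ((a : ℂ) + y * I))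
      (Set.uIcc q p) y := by
    intro y hyy
    have h1 : HasDerivAt (fun y : ℝ => ((a : ℂ) + y * I)) I y := by
      have h2 : HasDerivAt (fun x : ℂ => ((a : ℂ) + x * I)) (1 * I) (y : ℂ) :=
        ((hasDerivAt_id (y : ℂ)).mul_const I).const_add _
      rw [one_mul] at h2
      exact h2.comp_ofReal
    exact (h1.clog_real (hy y hyy).1).hasDerivWithinAt
  have hb : ∀ y ∈ Set.uIcc q p, ‖I / ((a : ℂ) + y * I)‖ ≤ δ⁻¹ := by
    intro y hyy
    rw [norm_div, Complex.norm_I, one_div]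
    exact inv_anti₀ hδ (hy y hyy).2
  have key := Convex.norm_image_sub_le_of_norm_hasDerivWithin_le hd hb (convex_uIcc q p)
    (left_mem_uIcc) (right_mem_uIcc)
  have h7 := (Complex.abs_im_le_norm (Complex.log ((a : ℂ) + p * I) - Complex.log ((a : ℂ) + q * I))).trans key
  rw [Complex.sub_im, Complex.log_im, Complex.log_im, Real.norm_eq_abs] at h7
  exact h7

/-- the dominating sequence -/
noncomputable def aa (n : ℕ) : ℝ := Real.log n * (1 + Real.log n) / (n : ℝ) ^ (2 : ℝ)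

theorem aa_nonneg (n : ℕ) : 0 ≤ aa n := by
  unfold aa
  have := Real.log_natCast_nonneg n
  positivity

theorem aa_summable : Summable aa := by
  have h1 : Summable (fun n : ℕ => (20 : ℝ) * (1 / (n : ℝ) ^ (3 / 2 : ℝ))) := by
    apply Summable.mul_left
    exact Real.summable_one_div_nat_rpow.2 (by norm_num)
  refine Summable.of_nonneg_of_le aa_nonneg ?_ h1
  intro n
  rcases Nat.eq_zero_or_pos n with h | h
  · rw [h]
    unfold aa
    simp
  · have hn : (0 : ℝ) < n := by exact_mod_cast h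
    have hn1 : (1 : ℝ) ≤ n := by exact_mod_cast h
    have h2 : Real.log n ≤ 4 * (n : ℝ) ^ (1 / 4 : ℝ) := by
      have h3 := Real.log_le_rpow_div hn.le (by norm_num : (0 : ℝ) < 1 / 4)
      have h4 : (n : ℝ) ^ (1 / 4 : ℝ) / (1 / 4) = 4 * (n : ℝ) ^ (1 / 4 : ℝ) := by ring
      linarith
    have h5 : 1 ≤ (n : ℝ) ^ (1 / 4 : ℝ) := Real.one_le_rpow hn1 (by norm_num)
    have h6 : 0 ≤ Real.log n := Real.log_natCast_nonneg n
    have h7 : Real.log n * (1 + Real.log n) ≤ 20 * (n : ℝ) ^ (1 / 2 : ℝ) := by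
      have e1 : (n : ℝ) ^ (1 / 2 : ℝ) = (n : ℝ) ^ (1 / 4 : ℝ) * (n : ℝ) ^ (1 / 4 : ℝ) := by
        rw [← Real.rpow_add hn]; norm_num
      rw [e1]
      have h8 : Real.log n * (1 + Real.log n) ≤ 4 * (n : ℝ) ^ (1 / 4 : ℝ) * (5 * (n : ℝ) ^ (1 / 4 : ℝ)) :=
        mul_le_mul h2 (by linarith) (by linarith) (by positivity)
      linarith
    unfold aa
    rw [div_le_iff₀ (by positivity)]
    have e2 : (20 : ℝ) * (1 / (n : ℝ) ^ (3 / 2 : ℝ)) * (n : ℝ) ^ (2 : ℝ) = 20 * (n : ℝ) ^ (1 / 2 : ℝ) := by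
      have e3 : (n : ℝ) ^ (2 : ℝ) = (n : ℝ) ^ (3 / 2 : ℝ) * (n : ℝ) ^ (1 / 2 : ℝ) := by
        rw [← Real.rpow_add hn]; norm_num
      rw [e3]
      field_simp
    rw [e2]
    exact h7

theorem pow_le' {n : ℕ} (hn : 2 ≤ n) {σ : ℝ} (hσ : 2 ≤ σ) :
    1 / (n : ℝ) ^ σ ≤ 2 ^ (-(σ - 2)) * (1 / (n : ℝ) ^ (2 : ℝ)) := by
  have hn0 : (0 : ℝ) < n := by exact_mod_cast (by omega : 0 < n)
  have hn2 : (2 : ℝ) ≤ n := by exact_mod_cast hn
  have e1 : (n : ℝ) ^ σ = (n : ℝ) ^ (σ - 2) * (n : ℝ) ^ (2 : ℝ) := by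
    rw [← Real.rpow_add hn0]; congr 1; ring
  rw [e1, Real.rpow_neg (by norm_num)]
  have h1 : (2 : ℝ) ^ (σ - 2) ≤ (n : ℝ) ^ (σ - 2) := Real.rpow_le_rpow (by norm_num) hn2 (by linarith)
  have h2 : (0 : ℝ) < 2 ^ (σ - 2) := Real.rpow_pos_of_pos (by norm_num) _
  rw [one_div, mul_inv, one_div]
  apply mul_le_mul_of_nonneg_right _ (by positivity)
  exact inv_anti₀ h2 h1

theorem term_bound {σ u : ℝ} (hσ : 2 ≤ σ) (n : ℕ) :
    ‖LSeries.term (fun n => (ArithmeticFunction.vonMangoldt n : ℂ)) (σ + u * I) n‖ ≤ 2 ^ (-(σ - 2)) * aa n := by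
  have h2 : (0 : ℝ) < 2 ^ (-(σ - 2)) := Real.rpow_pos_of_pos (by norm_num) _
  rw [LSeries.norm_term_eq]
  split_ifs with h
  · exact mul_nonneg h2.le (aa_nonneg n)
  · have hre : ((σ : ℂ) + u * I).re = σ := by simp
    rw [hre, Complex.norm_real, Real.norm_of_nonneg ArithmeticFunction.vonMangoldt_nonneg]
    rcases Nat.lt_or_ge n 2 with h1 | h1
    · have : n = 1 := by omega
      rw [this, ArithmeticFunction.vonMangoldt_apply_one, zero_div]
      exact mul_nonneg h2.le (aa_nonneg 1)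
    · have h3 : ArithmeticFunction.vonMangoldt n ≤ Real.log n := ArithmeticFunction.vonMangoldt_le_log
      have h4 := Real.log_natCast_nonneg n
      have h5 := pow_le' h1 hσ
      calc ArithmeticFunction.vonMangoldt n / (n : ℝ) ^ σ = ArithmeticFunction.vonMangoldt n * (1 / (n : ℝ) ^ σ) := by ring
        _ ≤ (Real.log n * (1 + Real.log n)) * (2 ^ (-(σ - 2)) * (1 / (n : ℝ) ^ (2 : ℝ))) := by
          apply mul_le_mul _ h5 (by positivity) (by positivity)
          nlinarith
        _ = 2 ^ (-(σ - 2)) * aa n := by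
          unfold aa
          ring

theorem term_diff {σ u v : ℝ} (hσ : 2 ≤ σ) (n : ℕ) :
    ‖LSeries.term (fun n => (ArithmeticFunction.vonMangoldt n : ℂ)) (σ + u * I) n -
      LSeries.term (fun n => (ArithmeticFunction.vonMangoldt n : ℂ)) (σ + v * I) n‖ ≤ 2 ^ (-(σ - 2)) * aa n * |u - v| := by
  have h2 : (0 : ℝ) < 2 ^ (-(σ - 2)) := Real.rpow_pos_of_pos (by norm_num) _
  rcases Nat.eq_zero_or_pos n with h | h
  · rw [h, LSeries.term_zero, LSeries.term_zero, sub_zero, norm_zero]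
    have := aa_nonneg 0
    positivity
  · rcases Nat.lt_or_ge n 2 with h1 | h1
    · have : n = 1 := by omega
      rw [this, LSeries.term_of_ne_zero one_ne_zero, LSeries.term_of_ne_zero one_ne_zero,
        ArithmeticFunction.vonMangoldt_apply_one]
      simp only [ofReal_zero, zero_div, sub_zero, norm_zero]
      have := aa_nonneg 1
      positivity
    · have hn0 : (n : ℂ) ≠ 0 := by exact_mod_cast (by omega : n ≠ 0)
      have hnp : (0 : ℝ) < n := by exact_mod_cast h
      rw [LSeries.term_of_ne_zero (by omega), LSeries.term_of_ne_zero (by omega)]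
      have e1 : ∀ w : ℝ, ((ArithmeticFunction.vonMangoldt n : ℝ) : ℂ) / (n : ℂ) ^ ((σ : ℂ) + w * I) =
          ((ArithmeticFunction.vonMangoldt n : ℝ) : ℂ) / (n : ℂ) ^ (σ : ℂ) * cexp (I * ((-(w * Real.log n) : ℝ) : ℂ)) := by
        intro w
        rw [Complex.cpow_add _ _ hn0, div_mul_eq_div_div, div_eq_mul_inv _ ((n : ℂ) ^ ((w : ℂ) * I)), ← Complex.cpow_neg,
          Complex.cpow_def_of_ne_zero hn0 (-((w : ℂ) * I))]
        congr 2
        rw [← Complex.natCast_log]
        push_cast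
        ring
      rw [e1 u, e1 v, ← mul_sub, norm_mul]
      have h6 : ‖cexp (I * ((-(u * Real.log n) : ℝ) : ℂ)) - cexp (I * ((-(v * Real.log n) : ℝ) : ℂ))‖ ≤
          Real.log n * |u - v| := by
        have e2 : cexp (I * ((-(u * Real.log n) : ℝ) : ℂ)) - cexp (I * ((-(v * Real.log n) : ℝ) : ℂ)) =
            cexp (I * ((-(v * Real.log n) : ℝ) : ℂ)) * (cexp (I * (((v - u) * Real.log n : ℝ) : ℂ)) - 1) := by
          rw [mul_sub, mul_one, ← Complex.exp_add]
          congr 2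
          push_cast
          ring
        rw [e2, norm_mul, mul_comm I, Complex.norm_exp_ofReal_mul_I, one_mul]
        refine (Real.norm_exp_I_mul_ofReal_sub_one_le).trans ?_
        rw [Real.norm_eq_abs, abs_mul, abs_of_nonneg (Real.log_natCast_nonneg n), abs_sub_comm, mul_comm]
      have h7 : ‖((ArithmeticFunction.vonMangoldt n : ℝ) : ℂ) / (n : ℂ) ^ (σ : ℂ)‖ ≤
          (1 + Real.log n) * (2 ^ (-(σ - 2)) * (1 / (n : ℝ) ^ (2 : ℝ))) := by
        rw [norm_div, Complex.norm_real, Real.norm_of_nonneg ArithmeticFunction.vonMangoldt_nonneg,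
          Complex.norm_natCast_cpow_of_pos h, Complex.ofReal_re]
        have h3 : ArithmeticFunction.vonMangoldt n ≤ Real.log n := ArithmeticFunction.vonMangoldt_le_log
        have h5 := pow_le' h1 hσ
        calc ArithmeticFunction.vonMangoldt n / (n : ℝ) ^ σ = ArithmeticFunction.vonMangoldt n * (1 / (n : ℝ) ^ σ) := by ring
          _ ≤ (1 + Real.log n) * (2 ^ (-(σ - 2)) * (1 / (n : ℝ) ^ (2 : ℝ))) :=
            mul_le_mul (by linarith) h5 (by positivity) (by have := Real.log_natCast_nonneg n; linarith)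
      refine (mul_le_mul h7 h6 (norm_nonneg _) (by have := Real.log_natCast_nonneg n; positivity)).trans (le_of_eq ?_)
      unfold aa
      ring

/-- the constant -/
noncomputable def KK : ℝ := ∑' n, aa n

theorem KK_nonneg : 0 ≤ KK := tsum_nonneg aa_nonneg

theorem ld_bound {σ u : ℝ} (hσ : 2 ≤ σ) :
    ‖deriv riemannZeta (σ + u * I) / riemannZeta (σ + u * I)‖ ≤ 2 ^ (-(σ - 2)) * KK := by
  have h1 : (1 : ℝ) < ((σ : ℂ) + u * I).re := by simp; linarith
  have h2 := ArithmeticFunction.LSeries_vonMangoldt_eq_deriv_riemannZeta_div h1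
  rw [← norm_neg, ← neg_div, ← h2]
  unfold LSeries KK
  rw [← tsum_mul_left]
  refine tsum_of_norm_bounded (Summable.hasSum (aa_summable.mul_left _)) (fun n => term_bound hσ n)

theorem ld_diff {σ u v : ℝ} (hσ : 2 ≤ σ) :
    ‖deriv riemannZeta (σ + u * I) / riemannZeta (σ + u * I) -
      deriv riemannZeta (σ + v * I) / riemannZeta (σ + v * I)‖ ≤ 2 ^ (-(σ - 2)) * KK * |u - v| := by
  have h1 : ∀ w : ℝ, (1 : ℝ) < ((σ : ℂ) + w * I).re := by intro w; simp; linarith
  have h2 := ArithmeticFunction.LSeries_vonMangoldt_eq_deriv_riemannZeta_div (h1 u)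
  have h3 := ArithmeticFunction.LSeries_vonMangoldt_eq_deriv_riemannZeta_div (h1 v)
  have s2 := ArithmeticFunction.LSeriesSummable_vonMangoldt (h1 u)
  have s3 := ArithmeticFunction.LSeriesSummable_vonMangoldt (h1 v)
  have e1 : deriv riemannZeta (σ + u * I) / riemannZeta (σ + u * I) -
      deriv riemannZeta (σ + v * I) / riemannZeta (σ + v * I) =
      LSeries (fun n => (ArithmeticFunction.vonMangoldt n : ℂ)) (σ + v * I) -
        LSeries (fun n => (ArithmeticFunction.vonMangoldt n : ℂ)) (σ + u * I) := by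
    rw [h2, h3]
    ring
  rw [e1, norm_sub_rev]
  unfold LSeries KK
  rw [← (show Summable _ from s2).tsum_sub (show Summable _ from s3), ← tsum_mul_left, ← tsum_mul_right]
  refine tsum_of_norm_bounded (Summable.hasSum ((aa_summable.mul_left _).mul_right _)) (fun n => term_diff hσ n)

theorem zeta_analytic {s : ℂ} (hs : s ≠ 1) : AnalyticAt ℂ riemannZeta s := by
  have h1 : DifferentiableOn ℂ riemannZeta {1}ᶜ := fun z hz => (differentiableAt_riemannZeta hz).differentiableWithinAt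
  exact h1.analyticAt (isOpen_compl_singleton.mem_nhds hs)

/-- `ζ'/ζ` is continuous on horizontal lines off the zeros and the pole -/
theorem ld_cont {u : ℝ} (hu : u ≠ 0) (s : Set ℝ) (h : ∀ σ ∈ s, riemannZeta (σ + u * I) ≠ 0) :
    ContinuousOn (fun σ : ℝ => deriv riemannZeta (σ + u * I) / riemannZeta (σ + u * I)) s := by
  intro σ hσ
  have hne : ((σ : ℂ) + u * I) ≠ 1 := by
    intro h0
    have := congrArg Complex.im h0
    simp at this
    exact hu this
  have ha := zeta_analytic hne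
  have h1 : ContinuousAt (fun z : ℂ => deriv riemannZeta z / riemannZeta z) ((σ : ℂ) + u * I) :=
    ha.deriv.continuousAt.div ha.continuousAt (h σ hσ)
  have h2 : ContinuousAt (fun x : ℝ => ((x : ℂ) + u * I)) σ := by fun_prop
  exact (ContinuousAt.comp (f := fun x : ℝ => ((x : ℂ) + u * I)) h1 h2).continuousWithinAt

theorem exp_int : IntegrableOn (fun σ : ℝ => (2 : ℝ) ^ (-(σ - 2))) (Set.Ioi 2) ∧
    ∫ σ in Set.Ioi (2 : ℝ), (2 : ℝ) ^ (-(σ - 2)) = 1 / Real.log 2 := by
  have e : (fun σ : ℝ => (2 : ℝ) ^ (-(σ - 2))) = fun σ : ℝ => 4 * Real.exp (-Real.log 2 * σ) := by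
    funext σ
    rw [Real.rpow_def_of_pos (by norm_num)]
    have : (4 : ℝ) = Real.exp (Real.log 2 * 2) := by
      rw [mul_comm, Real.exp_mul, ]
      rw [show Real.exp 2 ^ Real.log 2 = Real.exp (2 * Real.log 2) by rw [← Real.exp_mul]]
      rw [show (2 : ℝ) * Real.log 2 = Real.log 2 + Real.log 2 by ring, Real.exp_add, Real.exp_log (by norm_num)]
      norm_num
    rw [this, ← Real.exp_add]
    congr 1
    ring
  have hl : 0 < Real.log 2 := Real.log_pos (by norm_num)
  have h1 : IntegrableOn (fun σ : ℝ => Real.exp (-Real.log 2 * σ)) (Set.Ioi 2) :=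
    integrableOn_exp_mul_Ioi (by linarith) 2
  have h2 := integral_exp_mul_Ioi (a := -Real.log 2) (by linarith) 2
  rw [e]
  refine ⟨h1.const_mul 4, ?_⟩
  rw [integral_const_mul, h2]
  have e3 : Real.exp (-Real.log 2 * 2) = 1 / 4 := by
    rw [show -Real.log 2 * 2 = -(Real.log 2 + Real.log 2) by ring, Real.exp_neg, Real.exp_add, Real.exp_log (by norm_num)]
    norm_num
  rw [e3]
  field_simp
  try norm_num

/-- the part of the argument to the right of `2` -/
noncomputable def tl (u : ℝ) : ℝ := ∫ σ in Set.Ioi (2 : ℝ), (deriv riemannZeta (σ + u * I) / riemannZeta (σ + u * I)).im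

theorem tl_int {u : ℝ} (hu : u ≠ 0) :
    IntegrableOn (fun σ : ℝ => (deriv riemannZeta (σ + u * I) / riemannZeta (σ + u * I)).im) (Set.Ioi 2) := by
  have h1 : ContinuousOn (fun σ : ℝ => (deriv riemannZeta (σ + u * I) / riemannZeta (σ + u * I)).im) (Set.Ioi 2) := by
    apply Complex.continuous_im.comp_continuousOn
    apply ld_cont hu
    intro σ hσ
    apply riemannZeta_ne_zero_of_one_le_re
    simp
    have : 2 < σ := hσ
    linarith
  refine Integrable.mono' ((exp_int.1).mul_const KK) (h1.aestronglyMeasurable measurableSet_Ioi) ?_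
  refine (ae_restrict_iff' measurableSet_Ioi).2 (Eventually.of_forall fun σ hσ => ?_)
  rw [Real.norm_eq_abs]
  exact (Complex.abs_im_le_norm _).trans (ld_bound (le_of_lt hσ))

theorem tl_bound {u : ℝ} : |tl u| ≤ KK / Real.log 2 := by
  unfold tl
  rw [← Real.norm_eq_abs]
  refine (norm_integral_le_of_norm_le ((exp_int.1).mul_const KK) ?_).trans (le_of_eq ?_)
  · refine (ae_restrict_iff' measurableSet_Ioi).2 (Eventually.of_forall fun σ hσ => ?_)
    rw [Real.norm_eq_abs]
    exact (Complex.abs_im_le_norm _).trans (ld_bound (le_of_lt hσ))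
  · rw [integral_mul_const, exp_int.2]
    ring

theorem tl_lip {u v : ℝ} (hu : u ≠ 0) (hv : v ≠ 0) : |tl u - tl v| ≤ KK / Real.log 2 * |u - v| := by
  unfold tl
  rw [← integral_sub (tl_int hu) (tl_int hv), ← Real.norm_eq_abs]
  refine (norm_integral_le_of_norm_le ((exp_int.1).mul_const (KK * |u - v|)) ?_).trans (le_of_eq ?_)
  · refine (ae_restrict_iff' measurableSet_Ioi).2 (Eventually.of_forall fun σ hσ => ?_)
    rw [Real.norm_eq_abs, ← Complex.sub_im]
    refine ((Complex.abs_im_le_norm _).trans (ld_diff (le_of_lt hσ))).trans (le_of_eq ?_)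
    ring
  · rw [integral_mul_const, exp_int.2]
    ring

end Run7.h376.AE
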