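import Pool.Agent.Run7.h74.AE.Iface
import Pool.Agent.Q149.UM.LOC
import Pool.Agent.Run7.h376.AE.Gen

/-!
# Project AE (helper74), piece LOCI: local expansion of the argument of zeta
-/

set_option autoImplicit false

namespace Run7.h376.AE

open Complex Filter Metric Set MeasureTheory
open Pool.Agent.Q97.UM
open Pool.Agent.Q149.UM
open Pool.Agent.Run7.h74.AE (az S_LOCI)

noncomputable section

/-- the local factorisation, logarithmic derivative -/
theorem loc_data' : ∃ D : ℝ, 0 < D ∧ ∀ T t : ℝ, 100 ≤ T → T / 10 ≤ t → t ≤ 11 * T →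
    ∃ (g : ℂ → ℂ) (S : Finset ℂ),
      (∀ ρ ∈ S, ρ ∈ ZD T ∧ ‖ρ - ⟨2, t⟩‖ ≤ 1.8) ∧ (∀ ρ ∈ ZD T, ‖ρ - ⟨2, t⟩‖ ≤ 1.8 → ρ ∈ S) ∧
      (∀ z ∈ closedBall (⟨2, t⟩ : ℂ) 1.6, g z ≠ 0 ∧ AnalyticAt ℂ g z ∧
        ‖logDeriv g z‖ ≤ D * Real.log T) ∧
      (∀ z ∈ closedBall (⟨2, t⟩ : ℂ) 1.6, riemannZeta z ≠ 0 → deriv riemannZeta z / riemannZeta z =
        logDeriv g z + ∑ ρ ∈ S, (mz ρ : ℂ) / (z - ρ)) := by
  classical
  obtain ⟨K, hK, hdata⟩ := H370.Loc.ball_data H370.good_zeta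
  set q : ℝ := Real.log (1.9 / 1.8) with hq
  have hq0 : 0 < q := Real.log_pos (by norm_num)
  set ℓ : ℝ := Real.log (1.8 / (1.9 - 1.8)) with hℓ
  have hℓ0 : 0 < ℓ := Real.log_pos (by norm_num)
  set D1 : ℝ := 2 * (K + K / q * ℓ + 1) * 1.7 / (1.8 - 1.7) / (1.7 - 1.6) with hD1
  have hD10 : 0 < D1 := by
    have : (0 : ℝ) < 1.8 - 1.7 := by norm_num
    have : (0 : ℝ) < 1.7 - 1.6 := by norm_num
    positivity
  refine ⟨2 * D1, by positivity, fun T t hT ht1 ht2 => ?_⟩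
  have ht3 : 10 ≤ t := by linarith
  have hlt : 1 ≤ Real.log t := H370.Loc.one_le_log (by linarith)
  have hltT : Real.log t ≤ 2 * Real.log T := by
    have h6 : Real.log t ≤ Real.log (T ^ 2) := Real.log_le_log (by linarith) (by nlinarith)
    rw [Real.log_pow] at h6
    exact_mod_cast h6
  obtain ⟨M, hM1, han, hF0, hb, hMc, hL0, hLM⟩ := hdata t (by linarith)
  obtain ⟨s, g, hs, hg, hfg, hg0, hlg⟩ := SP.LocAux.extract_bound (f := riemannZeta)
    (c := ⟨2, t⟩) (r := 1.8) (r1 := 1.7) (r2 := 1.6) (R := 1.9) (M := M) (by norm_num)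
    (by norm_num) (by norm_num) (by norm_num) (by norm_num) hM1 hMc han hF0 hb
  have hlg' : ∀ z ∈ closedBall (⟨2, t⟩ : ℂ) 1.6, ‖logDeriv g z‖ ≤ 2 * D1 * Real.log T := by
    intro z hz
    have hD1t : ‖logDeriv g z‖ ≤ D1 * Real.log t := by
      refine (hlg z hz).trans ?_
      set X := Real.log (M / ‖riemannZeta ⟨2, t⟩‖) with hX
      have h1 : X / q * ℓ ≤ K * Real.log t / q * ℓ := by gcongr
      have h2 : X + X / q * ℓ + 1 ≤ (K + K / q * ℓ + 1) * Real.log t := by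
        have h3 : K * Real.log t / q * ℓ = K / q * ℓ * Real.log t := by ring
        rw [h3] at h1
        nlinarith
      have h4 : (0 : ℝ) < 1.8 - 1.7 := by norm_num
      have h5 : (0 : ℝ) < 1.7 - 1.6 := by norm_num
      calc _ ≤ 2 * ((K + K / q * ℓ + 1) * Real.log t) * 1.7 / (1.8 - 1.7) / (1.7 - 1.6) := by
            gcongr
        _ = D1 * Real.log t := by rw [hD1]; ring
    have := mul_le_mul_of_nonneg_left hltT hD10.le
    linarith
  have hsub1 : closedBall (⟨2, t⟩ : ℂ) 1.6 ⊆ closedBall (⟨2, t⟩ : ℂ) 1.8 :=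
    closedBall_subset_closedBall (by norm_num)
  have hsub2 : closedBall (⟨2, t⟩ : ℂ) 1.8 ⊆ closedBall (⟨2, t⟩ : ℂ) 1.9 :=
    closedBall_subset_closedBall (by norm_num)
  have hmem : ∀ ρ ∈ s, ρ ∈ ZD T ∧ ‖ρ - ⟨2, t⟩‖ ≤ 1.8 := by
    intro ρ hρ
    obtain ⟨h1, h2⟩ := hs ρ hρ
    rw [mem_closedBall, dist_eq_norm] at h1
    have h3 := (Complex.abs_re_le_norm (ρ - ⟨2, t⟩)).trans h1
    have h4 := (Complex.abs_im_le_norm (ρ - ⟨2, t⟩)).trans h1
    simp only [sub_re, sub_im] at h3 h4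
    rw [abs_le] at h3 h4
    have hre0 : 0 < ρ.re := by norm_num at h3 ⊢; linarith [h3.1]
    have him0 : t - 2 ≤ ρ.im := by norm_num at h4 ⊢; linarith [h4.1]
    have him1 : ρ.im ≤ t + 2 := by norm_num at h4 ⊢; linarith [h4.2]
    have hre1 : ρ.re < 1 := by
      by_contra hcon
      push Not at hcon
      exact H370.good_zeta.nzr ρ hcon (by linarith) h2
    refine ⟨(mem_ZD (by linarith)).2 ⟨hre0, hre1, by linarith, by linarith, h2⟩, h1⟩
  refine ⟨g, s.toFinset, fun ρ hρ => hmem ρ (Multiset.mem_toFinset.1 hρ), ?_, ?_, ?_⟩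
  · intro ρ hρ hball
    rw [mem_ZD (by linarith)] at hρ
    have hb' : ρ ∈ closedBall (⟨2, t⟩ : ℂ) 1.8 := by
      rw [mem_closedBall, dist_eq_norm]
      exact hball
    rw [Multiset.mem_toFinset]
    by_contra hns
    have h7 : H370.Loc.Pf s ρ ≠ 0 := H370.Loc.Pf_ne_zero fun x hx he => hns (he ▸ hx)
    have h8 := hfg ρ
    rw [hρ.2.2.2.2] at h8
    exact mul_ne_zero h7 (hg0 ρ hb') h8.symm
  · intro z hz
    exact ⟨hg0 z (hsub1 hz), hg z (hsub2 (hsub1 hz)), hlg' z hz⟩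
  · intro z hz hz0
    have hzρ : ∀ ρ ∈ s, z ≠ ρ := by
      intro ρ hρ he
      rw [he] at hz0
      exact hz0 (hs ρ hρ).2
    have hfun : riemannZeta = fun z => H370.Loc.Pf s z * g z := funext hfg
    rw [← logDeriv_apply, hfun, logDeriv_mul z (H370.Loc.Pf_ne_zero hzρ) (hg0 z (hsub1 hz)) (H370.Loc.Pf_diff s z)
      (hg z (hsub2 (hsub1 hz))).differentiableAt, SP.LocAux.logDeriv_Pf hzρ, add_comm]
    congr 1
    apply Finset.sum_congr rfl
    intro ρ hρ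
    have hρ' := Multiset.mem_toFinset.1 hρ
    have hρb := (hs ρ hρ').1
    have h1 := hmem ρ hρ'
    have h2 := (mem_ZD (by linarith)).1 h1.1
    have h3 : H370.mult riemannZeta ρ = s.count ρ :=
      SP.LocAux.count_eq_mult (H370.good_zeta.an ρ (by linarith [h2.2.2.1])) (hg ρ (hsub2 hρb))
        (hg0 ρ hρb) hfg
    rw [← h3]
    rfl

theorem seg_mem {t u x : ℝ} (hu : |u - t| ≤ 1 / 8) (hx1 : 1 / 2 ≤ x) (hx2 : x ≤ 2) :
    ((x : ℂ) + u * I) ∈ closedBall (⟨2, t⟩ : ℂ) 1.51 := by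
  rw [mem_closedBall, dist_eq_norm]
  apply abs_le_of_sq_le_sq' _ (by norm_num) |>.2
  rw [← Complex.normSq_eq_norm_sq, Complex.normSq_apply]
  have h1 : (((x : ℂ) + u * I) - ⟨2, t⟩).re = x - 2 := by simp
  have h2 : (((x : ℂ) + u * I) - ⟨2, t⟩).im = u - t := by simp
  rw [h1, h2]
  rw [abs_le] at hu
  have h3 : (x - 2) * (x - 2) ≤ (3 / 2) * (3 / 2) := by nlinarith
  have h4 : (u - t) * (u - t) ≤ (1 / 8) * (1 / 8) := by nlinarith
  norm_num
  linarith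

/-- a function with bounded values on the ball of radius `1.6` is Lipschitz on the ball of radius `1.51` -/
theorem lip_of_bound {h : ℂ → ℂ} {c : ℂ} {K : ℝ} (hd : ∀ z ∈ closedBall c 1.6, DifferentiableAt ℂ h z)
    (hb : ∀ z ∈ closedBall c 1.6, ‖h z‖ ≤ K) {z w : ℂ} (hz : z ∈ closedBall c 1.51) (hw : w ∈ closedBall c 1.51) :
    ‖h z - h w‖ ≤ K / 0.05 * ‖z - w‖ := by
  have hsub : ∀ x ∈ closedBall c 1.51, closedBall x 0.05 ⊆ closedBall c 1.6 := by
    intro x hx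
    apply closedBall_subset_closedBall'
    rw [mem_closedBall] at hx
    norm_num at hx ⊢
    linarith
  have hsub0 : closedBall c 1.51 ⊆ closedBall c 1.6 := closedBall_subset_closedBall (by norm_num)
  have hder : ∀ x ∈ closedBall c 1.51, ‖deriv h x‖ ≤ K / 0.05 := by
    intro x hx
    apply Complex.norm_deriv_le_of_forall_mem_sphere_norm_le (by norm_num)
    · apply DifferentiableOn.diffContOnCl
      rw [closure_ball x (by norm_num)]
      exact fun y hy => (hd y (hsub x hx hy)).differentiableWithinAt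
    · intro y hy
      exact hb y (hsub x hx (sphere_subset_closedBall hy))
  exact Convex.norm_image_sub_le_of_norm_deriv_le (fun x hx => hd x (hsub0 hx)) hder (convex_closedBall c 1.51) hw hz

theorem nz_line {T u : ℝ} (hT : 100 ≤ T) (hu1 : T / 15 ≤ u) (hu2 : u ≤ 12 * T) (hu : ∀ s ∈ ZD T, s.im ≠ u)
    {x : ℝ} (hx : 1 / 2 ≤ x) : riemannZeta ((x : ℂ) + u * I) ≠ 0 := by
  intro h0
  have hre : ((x : ℂ) + u * I).re = x := by simp
  have him : ((x : ℂ) + u * I).im = u := by simp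
  have hx1 : x < 1 := by
    by_contra hcon
    push Not at hcon
    exact riemannZeta_ne_zero_of_one_le_re (by rw [hre]; exact hcon) h0
  apply hu ((x : ℂ) + u * I) _ him
  rw [mem_ZD (by linarith)]
  refine ⟨by rw [hre]; linarith, by rw [hre]; exact hx1, by rw [him]; linarith, by rw [him]; linarith, h0⟩

/-- the formula for the argument -/
theorem az_formula {T t u K : ℝ} (hT : 100 ≤ T) (ht1 : T / 10 ≤ t) (ht2 : t ≤ 11 * T) (hut : |u - t| ≤ 1 / 8)
    (hu : ∀ s ∈ ZD T, s.im ≠ u) (g : ℂ → ℂ) (S : Finset ℂ) (hS : ∀ ρ ∈ S, ρ ∈ ZD T)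
    (hg : ∀ z ∈ closedBall (⟨2, t⟩ : ℂ) 1.6, g z ≠ 0 ∧ AnalyticAt ℂ g z ∧ ‖logDeriv g z‖ ≤ K)
    (hfac : ∀ z ∈ closedBall (⟨2, t⟩ : ℂ) 1.6, riemannZeta z ≠ 0 → deriv riemannZeta z / riemannZeta z =
        logDeriv g z + ∑ ρ ∈ S, (mz ρ : ℂ) / (z - ρ)) :
    IntervalIntegrable (fun x : ℝ => (logDeriv g ((x : ℂ) + u * I)).im) volume (1 / 2) 2 ∧
    az u = -(∫ x in (1 / 2 : ℝ)..2, (logDeriv g ((x : ℂ) + u * I)).im) - tl u +
      ∑ ρ ∈ S, (mz ρ : ℝ) * (arg (((1 / 2 : ℝ) : ℂ) + u * I - ρ) - arg (((2 : ℝ) : ℂ) + u * I - ρ)) := by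
  have hut' := abs_le.1 hut
  have hu0 : u ≠ 0 := by
    intro h
    linarith [hut'.1]
  have hin : ∀ x ∈ Set.uIcc (1 / 2 : ℝ) 2, ((x : ℂ) + u * I) ∈ closedBall (⟨2, t⟩ : ℂ) 1.6 := by
    intro x hx
    rw [Set.uIcc_of_le (by norm_num)] at hx
    exact closedBall_subset_closedBall (by norm_num) (seg_mem hut hx.1 hx.2)
  have hnz : ∀ x ∈ Set.uIcc (1 / 2 : ℝ) 2, riemannZeta ((x : ℂ) + u * I) ≠ 0 := by
    intro x hx
    rw [Set.uIcc_of_le (by norm_num)] at hx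
    exact nz_line hT (by linarith [hut'.1]) (by linarith [hut'.2]) hu hx.1
  have hgc : ContinuousOn (fun x : ℝ => (logDeriv g ((x : ℂ) + u * I)).im) (Set.uIcc (1 / 2 : ℝ) 2) := by
    apply Complex.continuous_im.comp_continuousOn
    intro x hx
    obtain ⟨h1, h2, -⟩ := hg _ (hin x hx)
    have h3 : ContinuousAt (logDeriv g) ((x : ℂ) + u * I) := (h2.deriv.continuousAt).div h2.continuousAt h1
    have h4 : ContinuousAt (fun x : ℝ => ((x : ℂ) + u * I)) x := by fun_prop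
    exact (ContinuousAt.comp (f := fun x : ℝ => ((x : ℂ) + u * I)) h3 h4).continuousWithinAt
  have hgi : IntervalIntegrable (fun x : ℝ => (logDeriv g ((x : ℂ) + u * I)).im) volume (1 / 2) 2 :=
    hgc.intervalIntegrable
  refine ⟨hgi, ?_⟩
  have hzi : IntervalIntegrable (fun x : ℝ => (deriv riemannZeta ((x : ℂ) + u * I) / riemannZeta ((x : ℂ) + u * I)).im)
      volume (1 / 2) 2 :=
    (Complex.continuous_im.comp_continuousOn (ld_cont hu0 _ hnz)).intervalIntegrable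
  have e1 : az u = -((∫ x in (1 / 2 : ℝ)..2, (deriv riemannZeta ((x : ℂ) + u * I) / riemannZeta ((x : ℂ) + u * I)).im) +
      tl u) := by
    unfold az tl
    rw [intervalIntegral.integral_interval_add_Ioi' hzi (tl_int hu0)]
  have e2 : (∫ x in (1 / 2 : ℝ)..2, (deriv riemannZeta ((x : ℂ) + u * I) / riemannZeta ((x : ℂ) + u * I)).im) =
      ∫ x in (1 / 2 : ℝ)..2, ((logDeriv g ((x : ℂ) + u * I)).im +
        ∑ ρ ∈ S, (mz ρ : ℝ) * (1 / ((x : ℂ) + u * I - ρ)).im) := by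
    apply intervalIntegral.integral_congr
    intro x hx
    have h1 := hfac _ (hin x hx) (hnz x hx)
    show (deriv riemannZeta ((x : ℂ) + u * I) / riemannZeta ((x : ℂ) + u * I)).im = _
    rw [h1, Complex.add_im, Complex.im_sum]
    congr 1
    apply Finset.sum_congr rfl
    intro ρ _
    rw [div_eq_mul_one_div, show ((mz ρ : ℕ) : ℂ) = (((mz ρ : ℕ) : ℝ) : ℂ) by push_cast; rfl, Complex.im_ofReal_mul]
  have hρi : ∀ ρ ∈ S, IntervalIntegrable (fun x : ℝ => (mz ρ : ℝ) * (1 / ((x : ℂ) + u * I - ρ)).im) volume (1 / 2) 2 :=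
    fun ρ hρ => ((arg_int (ρ := ρ) (u := u) (fun h => hu ρ (hS ρ hρ) h.symm) (1 / 2) 2).1).const_mul _
  have hsi : IntervalIntegrable (fun x : ℝ => ∑ ρ ∈ S, (mz ρ : ℝ) * (1 / ((x : ℂ) + u * I - ρ)).im) volume (1 / 2) 2 := by
    have := IntervalIntegrable.sum S hρi
    refine this.congr (fun v _ => ?_)
    simp
  rw [e1, e2, intervalIntegral.integral_add hgi hsi, intervalIntegral.integral_finsetSum hρi]
  have e3 : ∑ ρ ∈ S, ∫ x in (1 / 2 : ℝ)..2, (mz ρ : ℝ) * (1 / ((x : ℂ) + u * I - ρ)).im =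
      -∑ ρ ∈ S, (mz ρ : ℝ) * (arg (((1 / 2 : ℝ) : ℂ) + u * I - ρ) - arg (((2 : ℝ) : ℂ) + u * I - ρ)) := by
    rw [← Finset.sum_neg_distrib]
    apply Finset.sum_congr rfl
    intro ρ hρ
    rw [intervalIntegral.integral_const_mul, (arg_int (ρ := ρ) (u := u) (fun h => hu ρ (hS ρ hρ) h.symm) (1 / 2) 2).2]
    ring
  rw [e3]
  ring

/-- the exceptional zeros -/
theorem far_arg {T t x : ℝ} (hT : 100 ≤ T) (S : Finset ℂ)
    (hS1 : ∀ ρ ∈ S, ρ ∈ ZD T ∧ ‖ρ - ⟨2, t⟩‖ ≤ 1.8)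
    (hS2 : ∀ ρ ∈ ZD T, ‖ρ - ⟨2, t⟩‖ ≤ 1.8 → ρ ∈ S) (hx : |x - t| ≤ 1 / 8) (ρ : ℂ)
    (hρ : (ρ ∈ S ∧ ρ ∉ AA T t) ∨ (ρ ∈ AA T t ∧ ρ ∉ S)) :
    |arg ((1 / 2 + x * I : ℂ) - ρ) - arg ((1 / 2 + t * I : ℂ) - ρ)| ≤ 10 * |x - t| := by
  have hre : ∀ x : ℝ, ((1 / 2 + x * I : ℂ) - ρ).re = 1 / 2 - ρ.re := by intro x; simp
  have him : ∀ x : ℝ, ((1 / 2 + x * I : ℂ) - ρ).im = x - ρ.im := by intro x; simp
  have hx' := abs_le.1 hx
  have key : (1 / 10 : ℝ) ≤ ((1 / 2 + x * I : ℂ) - ρ).re ∨ ((1 / 10 : ℝ) ≤ ((1 / 2 + x * I : ℂ) - ρ).im ∧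
      (1 / 10 : ℝ) ≤ ((1 / 2 + t * I : ℂ) - ρ).im) ∨ (((1 / 2 + x * I : ℂ) - ρ).im ≤ -(1 / 10 : ℝ) ∧
      ((1 / 2 + t * I : ℂ) - ρ).im ≤ -(1 / 10 : ℝ)) := by
    rw [hre, him, him]
    have himcase : 4 / 5 < |ρ.im - t| → (1 / 10 : ℝ) ≤ 1 / 2 - ρ.re ∨ ((1 / 10 : ℝ) ≤ x - ρ.im ∧
        (1 / 10 : ℝ) ≤ t - ρ.im) ∨ (x - ρ.im ≤ -(1 / 10 : ℝ) ∧ t - ρ.im ≤ -(1 / 10 : ℝ)) := by
      intro h
      rcases lt_abs.1 h with h6 | h6
      · exact Or.inr (Or.inr ⟨by linarith [hx'.2], by linarith⟩)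
      · exact Or.inr (Or.inl ⟨by linarith [hx'.1], by linarith⟩)
    rcases hρ with ⟨h1, h2⟩ | ⟨h1, h2⟩
    · obtain ⟨h3, h4⟩ := hS1 ρ h1
      have h3' := (mem_ZD (by linarith)).1 h3
      apply himcase
      by_contra hcon
      push Not at hcon
      exact h2 ((mem_AA (by linarith)).2 ⟨h3', by linarith⟩)
    · obtain ⟨h3', h4⟩ := (mem_AA (by linarith)).1 h1
      have h5 : 1.8 < ‖ρ - ⟨2, t⟩‖ := by
        by_contra hcon
        exact h2 (hS2 ρ ((mem_ZD (by linarith)).2 h3') (not_lt.1 hcon))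
      by_cases h6 : 4 / 5 < |ρ.im - t|
      · exact himcase h6
      · left
        have h7 : (1.8 : ℝ) ^ 2 < ‖ρ - ⟨2, t⟩‖ ^ 2 := pow_lt_pow_left₀ h5 (by norm_num) (by norm_num)
        rw [← Complex.normSq_eq_norm_sq, Complex.normSq_apply] at h7
        simp only [sub_re, sub_im] at h7
        have h10 : (ρ.im - t) * (ρ.im - t) ≤ (4 / 5) * (4 / 5) := by
          rw [← abs_mul_abs_self (ρ.im - t)]
          have := not_lt.1 h6
          exact mul_self_le_mul_self (abs_nonneg _) this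
        have h11 : ρ.re < 2 / 5 := by
          by_contra hcon
          have := not_lt.1 hcon
          have h12 := h3'.2.1
          norm_num at h7
          nlinarith
        linarith
  have h1 := arg_lip (by norm_num : (0 : ℝ) < 1 / 10) (by rw [hre, hre]) key
  rw [him, him] at h1
  refine h1.trans (le_of_eq ?_)
  have e : x - ρ.im - (t - ρ.im) = x - t := by ring
  rw [e]
  norm_num

theorem t_LOCI : S_LOCI := by
  classical
  obtain ⟨C0, hC0, hC⟩ := count_near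
  obtain ⟨D, hD, hdat⟩ := loc_data'
  have hl2 : 0 < Real.log 2 := Real.log_pos (by norm_num)
  have hKK := KK_nonneg
  obtain ⟨Q, hQ⟩ : ∃ Q, Q = KK / Real.log 2 := ⟨_, rfl⟩
  have hQ0 : 0 ≤ Q := by rw [hQ]; positivity
  refine ⟨32 * D + Q + 50 * C0, by positivity, ?_⟩
  filter_upwards [eventually_ge_atTop (100 : ℝ)] with T hT t ht1 ht2
  have hL1 : 1 ≤ Real.log T := H370.Loc.one_le_log (by linarith)
  have hL0 : 0 ≤ Real.log T := by linarith
  obtain ⟨g, S, hS1, hS2, hg, hfac⟩ := hdat T t hT (by linarith) (by linarith)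
  have hSim : ∀ ρ ∈ S, ρ ∈ ZD T ∧ |ρ.im - t| ≤ 2 := by
    intro ρ hρ
    obtain ⟨h3, h4⟩ := hS1 ρ hρ
    have h5 := (Complex.abs_im_le_norm (ρ - ⟨2, t⟩)).trans h4
    simp only [sub_im] at h5
    refine ⟨h3, by norm_num at h5 ⊢; linarith⟩
  have hsumS := sum_S_le hC hT (by linarith) (by linarith) S hSim
  have hform : ∀ u : ℝ, |u - t| ≤ 1 / 8 → (∀ s ∈ ZD T, s.im ≠ u) → _ := fun u hut hu =>
    az_formula hT (by linarith) (by linarith) hut hu g S (fun ρ hρ => (hS1 ρ hρ).1) hg hfac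
  have hCL : 0 ≤ C0 * Real.log T := by positivity
  have hDL : 0 ≤ D * Real.log T := by positivity
  have hQL : Q ≤ Q * Real.log T := le_mul_of_one_le_right hQ0 hL1
  constructor
  · intro ht
    obtain ⟨hi, he⟩ := hform t (by simp) ht
    rw [he]
    have b1 : |∫ x in (1 / 2 : ℝ)..2, (logDeriv g ((x : ℂ) + t * I)).im| ≤ D * Real.log T * |2 - 1 / 2| := by
      rw [← Real.norm_eq_abs]
      apply intervalIntegral.norm_integral_le_of_norm_le_const
      intro x hx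
      rw [Set.uIoc_of_le (by norm_num)] at hx
      rw [Real.norm_eq_abs]
      exact (Complex.abs_im_le_norm _).trans
        (hg _ (closedBall_subset_closedBall (by norm_num) (seg_mem (by simp) hx.1.le hx.2))).2.2
    have b2 := tl_bound (u := t)
    rw [← hQ] at b2
    have b3 : |∑ ρ ∈ S, (mz ρ : ℝ) * (arg (((1 / 2 : ℝ) : ℂ) + t * I - ρ) - arg (((2 : ℝ) : ℂ) + t * I - ρ))| ≤
        8 * (2 * C0 * Real.log T) := by
      refine (Finset.abs_sum_le_sum_abs _ _).trans ?_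
      calc ∑ ρ ∈ S, |(mz ρ : ℝ) * (arg (((1 / 2 : ℝ) : ℂ) + t * I - ρ) - arg (((2 : ℝ) : ℂ) + t * I - ρ))| ≤
          ∑ ρ ∈ S, 8 * (mz ρ : ℝ) := by
            apply Finset.sum_le_sum
            intro ρ _
            have h5 : (0 : ℝ) ≤ mz ρ := Nat.cast_nonneg _
            rw [abs_mul, abs_of_nonneg h5, mul_comm]
            apply mul_le_mul_of_nonneg_right _ h5
            have h6 := Complex.abs_arg_le_pi (((1 / 2 : ℝ) : ℂ) + t * I - ρ)
            have h7 := Complex.abs_arg_le_pi (((2 : ℝ) : ℂ) + t * I - ρ)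
            refine (abs_sub _ _).trans ?_
            linarith [Real.pi_le_four]
        _ = 8 * ∑ ρ ∈ S, (mz ρ : ℝ) := by rw [Finset.mul_sum]
        _ ≤ _ := mul_le_mul_of_nonneg_left hsumS (by norm_num)
    have e : |(2 : ℝ) - 1 / 2| = 3 / 2 := by norm_num
    rw [e] at b1
    rw [abs_le] at b1 b2 b3 ⊢
    constructor
    · nlinarith [b1.1, b1.2, b2.1, b2.2, b3.1, b3.2]
    · nlinarith [b1.1, b1.2, b2.1, b2.2, b3.1, b3.2]
  · intro y hy hzero
    have hy' : |t + y - t| ≤ 1 / 8 := by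
      rw [add_sub_cancel_left]
      exact hy
    obtain ⟨hi0, he0⟩ := hform t (by simp) (fun s hs => (hzero s hs).1)
    obtain ⟨hi1, he1⟩ := hform (t + y) hy' (fun s hs => (hzero s hs).2)
    have hy2 := abs_le.1 hy
    have hy0 : 0 ≤ |y| := abs_nonneg y
    have b1 : |(∫ x in (1 / 2 : ℝ)..2, (logDeriv g ((x : ℂ) + (t + y : ℝ) * I)).im) -
        ∫ x in (1 / 2 : ℝ)..2, (logDeriv g ((x : ℂ) + t * I)).im| ≤ 30 * (D * Real.log T) * |y| := by
      rw [← intervalIntegral.integral_sub hi1 hi0, ← Real.norm_eq_abs]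
      have h1 : ‖∫ x in (1 / 2 : ℝ)..2, ((logDeriv g ((x : ℂ) + (t + y : ℝ) * I)).im -
          (logDeriv g ((x : ℂ) + t * I)).im)‖ ≤ (D * Real.log T / 0.05 * |y|) * |2 - 1 / 2| := by
        apply intervalIntegral.norm_integral_le_of_norm_le_const
        intro x hx
        rw [Set.uIoc_of_le (by norm_num)] at hx
        rw [Real.norm_eq_abs, ← Complex.sub_im]
        refine (Complex.abs_im_le_norm _).trans ?_
        have h2 := lip_of_bound (h := logDeriv g) (c := ⟨2, t⟩) (K := D * Real.log T) (fun z hz => by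
          obtain ⟨q1, q2, -⟩ := hg z hz
          exact (q2.deriv.div q2 q1).differentiableAt) (fun z hz => (hg z hz).2.2)
          (seg_mem (x := x) hy' hx.1.le hx.2) (seg_mem (x := x) (u := t) (by simp) hx.1.le hx.2)
        refine h2.trans (le_of_eq ?_)
        congr 1
        have e : (x : ℂ) + (t + y : ℝ) * I - ((x : ℂ) + t * I) = (y : ℂ) * I := by push_cast; ring
        rw [e, norm_mul, Complex.norm_I, mul_one, Complex.norm_real, Real.norm_eq_abs]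
      refine h1.trans (le_of_eq ?_)
      have e : |(2 : ℝ) - 1 / 2| = 3 / 2 := by norm_num
      rw [e]
      ring
    have b2 := tl_lip (u := t + y) (v := t) (by linarith) (by linarith)
    rw [← hQ, add_sub_cancel_left] at b2
    have hdiff := diff_le hC hT (by linarith) (by linarith) S hSim
      (fun ρ => arg ((1 / 2 + (t + y : ℝ) * I : ℂ) - ρ) - arg ((1 / 2 + t * I : ℂ) - ρ))
      (b := 10 * |y|) (by positivity) (fun ρ hρ => by
        have := far_arg hT S hS1 hS2 hy' ρ hρ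
        rwa [add_sub_cancel_left] at this)
    have b4 : |∑ ρ ∈ S, (mz ρ : ℝ) * (arg (((2 : ℝ) : ℂ) + (t + y : ℝ) * I - ρ) - arg (((2 : ℝ) : ℂ) + t * I - ρ))| ≤
        |y| * (2 * C0 * Real.log T) := by
      refine (Finset.abs_sum_le_sum_abs _ _).trans ?_
      calc ∑ ρ ∈ S, |(mz ρ : ℝ) * (arg (((2 : ℝ) : ℂ) + (t + y : ℝ) * I - ρ) - arg (((2 : ℝ) : ℂ) + t * I - ρ))| ≤
          ∑ ρ ∈ S, |y| * (mz ρ : ℝ) := by
            apply Finset.sum_le_sum
            intro ρ hρ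
            have h5 : (0 : ℝ) ≤ mz ρ := Nat.cast_nonneg _
            rw [abs_mul, abs_of_nonneg h5, mul_comm]
            apply mul_le_mul_of_nonneg_right _ h5
            have h3 := (mem_ZD (by linarith)).1 (hS1 ρ hρ).1
            have h6 := arg_lip (z := ((2 : ℝ) : ℂ) + (t + y : ℝ) * I - ρ) (w := ((2 : ℝ) : ℂ) + t * I - ρ)
              (by norm_num : (0 : ℝ) < 1) (by simp) (Or.inl (by simp; linarith [h3.2.1]))
            refine h6.trans (le_of_eq ?_)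
            have e : (((2 : ℝ) : ℂ) + (t + y : ℝ) * I - ρ).im - (((2 : ℝ) : ℂ) + t * I - ρ).im = y := by
              simp
            rw [e]
            norm_num
        _ = |y| * ∑ ρ ∈ S, (mz ρ : ℝ) := by rw [Finset.mul_sum]
        _ ≤ _ := mul_le_mul_of_nonneg_left hsumS hy0
    have hAA : (ZD T).filter (fun s => |s.im - t| ≤ 1) = AA T t := rfl
    rw [hAA, he0, he1]
    have hhalf : (((1 / 2 : ℝ) : ℂ)) = 1 / 2 := by push_cast; rfl
    have e5 : ∑ ρ ∈ S, (mz ρ : ℝ) * (arg (((1 / 2 : ℝ) : ℂ) + (t + y : ℝ) * I - ρ) - arg (((2 : ℝ) : ℂ) + (t + y : ℝ) * I - ρ)) -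
        ∑ ρ ∈ S, (mz ρ : ℝ) * (arg (((1 / 2 : ℝ) : ℂ) + t * I - ρ) - arg (((2 : ℝ) : ℂ) + t * I - ρ)) =
        ∑ ρ ∈ S, (mz ρ : ℝ) * (arg ((1 / 2 + (t + y : ℝ) * I : ℂ) - ρ) - arg ((1 / 2 + t * I : ℂ) - ρ)) -
        ∑ ρ ∈ S, (mz ρ : ℝ) * (arg (((2 : ℝ) : ℂ) + (t + y : ℝ) * I - ρ) - arg (((2 : ℝ) : ℂ) + t * I - ρ)) := by
      rw [hhalf, ← Finset.sum_sub_distrib, ← Finset.sum_sub_distrib]
      apply Finset.sum_congr rfl
      intro ρ _
      ring
    have hQy : Q * |y| ≤ Q * Real.log T * |y| := mul_le_mul_of_nonneg_right hQL hy0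
    have hCy : 0 ≤ C0 * Real.log T * |y| := by positivity
    have hDy : 0 ≤ D * Real.log T * |y| := by positivity
    rw [abs_le] at b1 b2 hdiff b4 ⊢
    constructor
    · linarith [b1.1, b1.2, b2.1, b2.2, hdiff.1, hdiff.2, b4.1, b4.2, e5, hQy, hCy, hDy]
    · linarith [b1.1, b1.2, b2.1, b2.2, hdiff.1, hdiff.2, b4.1, b4.2, e5, hQy, hCy, hDy]

end

end Run7.h376.AE
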